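import Pool.Agent.helper33.QX.SpecA

set_option autoImplicit false

open scoped MatrixGroups ContDiff Topology
open MeasureTheory Filter Set
open Pool.Agent.QU

namespace Pool.Agent.QX

/-- the complex Fourier coefficient, as an integral over the line -/
noncomputable def SHF_c (L : ℝ) (F : ℝ × ℝ → ℝ) (n : ℤ) (t : ℝ) : ℂ :=
  ((2 * L)⁻¹ : ℝ) * ∫ x : ℝ, (F (x, t) : ℂ) * Complex.exp (-(Complex.I * (Real.pi * n / L * x : ℝ)))

theorem SHF_slice (F : ℝ × ℝ → ℝ) (L t : ℝ) (hF : Continuous F)
    (hs : ∀ x, F (x, t) ≠ 0 → |x| < L) : Continuous (fun x => F (x, t)) ∧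
    HasCompactSupport (fun x => F (x, t)) := by
  refine ⟨by fun_prop, ?_⟩
  refine HasCompactSupport.intro (K := Icc (-L) L) isCompact_Icc fun x hx => ?_
  by_contra h
  have := abs_lt.1 (hs x h)
  exact hx ⟨this.1.le, this.2.le⟩

theorem SHF_line (g : ℝ → ℝ) (L : ℝ) (hL : 0 < L) (hs : ∀ x, g x ≠ 0 → |x| < L) :
    ∫ x in (-L)..L, g x = ∫ x : ℝ, g x := by
  rw [intervalIntegral.integral_of_le (by linarith)]
  refine setIntegral_eq_integral_of_forall_compl_eq_zero fun x hx => ?_
  by_contra h
  have := abs_lt.1 (hs x h)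
  exact hx ⟨this.1, this.2.le⟩

theorem SHF_rel (L : ℝ) (F : ℝ × ℝ → ℝ) (n : ℤ) (t : ℝ) (hL : 0 < L) (hF : Continuous F)
    (hs : ∀ x, F (x, t) ≠ 0 → |x| < L) :
    SHF_c L F n t = (fcC L F n t : ℂ) - Complex.I * (fcS L F n t : ℂ) := by
  obtain ⟨h1, h2⟩ := SHF_slice F L t hF hs
  unfold SHF_c fcC fcS
  rw [SHF_line _ L hL (fun x hx => hs x (left_ne_zero_of_mul hx)),
    SHF_line _ L hL (fun x hx => hs x (left_ne_zero_of_mul hx))]
  have hc : Integrable (fun x : ℝ => F (x, t) * Real.cos (Real.pi * n / L * x)) :=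
    (h1.mul (by fun_prop)).integrable_of_hasCompactSupport h2.mul_right
  have hs' : Integrable (fun x : ℝ => F (x, t) * Real.sin (Real.pi * n / L * x)) :=
    (h1.mul (by fun_prop)).integrable_of_hasCompactSupport h2.mul_right
  have e : ∀ x : ℝ, (F (x, t) : ℂ) * Complex.exp (-(Complex.I * (Real.pi * n / L * x : ℝ))) =
      ((F (x, t) * Real.cos (Real.pi * n / L * x) : ℝ) : ℂ) -
        Complex.I * ((F (x, t) * Real.sin (Real.pi * n / L * x) : ℝ) : ℂ) := by
    intro x
    have : Complex.exp (-(Complex.I * (Real.pi * n / L * x : ℝ))) =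
        (Real.cos (Real.pi * n / L * x) : ℂ) - Complex.I * (Real.sin (Real.pi * n / L * x) : ℂ) := by
      have h := Complex.exp_mul_I (-((Real.pi * n / L * x : ℝ) : ℂ))
      rw [show -(Complex.I * (Real.pi * n / L * x : ℝ)) =
        -((Real.pi * n / L * x : ℝ) : ℂ) * Complex.I by ring, h, Complex.cos_neg, Complex.sin_neg,
        Complex.ofReal_cos, Complex.ofReal_sin]
      ring
    rw [this]
    push_cast
    ring
  simp only [e]
  rw [integral_sub hc.ofReal (hs'.ofReal.const_mul _), integral_const_mul, integral_complex_ofReal,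
    integral_complex_ofReal]
  push_cast
  ring

theorem SHF_norm (L : ℝ) (F : ℝ × ℝ → ℝ) (n : ℤ) (t : ℝ) (hL : 0 < L) (hF : Continuous F)
    (hs : ∀ x, F (x, t) ≠ 0 → |x| < L) :
    fcC L F n t ^ 2 + fcS L F n t ^ 2 = ‖SHF_c L F n t‖ ^ 2 := by
  rw [SHF_rel L F n t hL hF hs, ← Complex.normSq_eq_norm_sq, Complex.normSq_apply]
  simp
  ring

theorem SHF_hpcont (θ : ℝ → ℝ) (F : ℝ × ℝ → ℝ) (hθ : TK θ) (hF : Continuous F)
    (hFc : HasCompactSupport F) : Continuous (hp θ F) := by
  obtain ⟨M, hM⟩ := hF.bounded_above_of_compact_support hFc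
  have hθi : Integrable θ := hθ.smooth.continuous.integrable_of_hasCompactSupport hθ.supp
  unfold hp
  refine continuous_of_dominated (bound := fun v => |θ v| * M) ?_ ?_ (hθi.abs.mul_const M) ?_
  · intro p
    have := hθ.smooth.continuous
    exact Continuous.aestronglyMeasurable (by fun_prop)
  · intro p
    refine Eventually.of_forall fun v => ?_
    rw [norm_mul, Real.norm_eq_abs]
    exact mul_le_mul_of_nonneg_left (hM _) (abs_nonneg _)
  · refine Eventually.of_forall fun v => ?_
    fun_prop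

theorem SHF_hpne (θ : ℝ → ℝ) (B : ℝ) (F : ℝ × ℝ → ℝ) (hB : ∀ v, θ v ≠ 0 → |v| ≤ B) (x t : ℝ)
    (h : hp θ F (x, t) ≠ 0) : ∃ v : ℝ, |v| ≤ B ∧ F (x + v * Real.exp t, t) ≠ 0 := by
  by_contra hcon
  push Not at hcon
  apply h
  unfold hp
  have : ∀ v : ℝ, θ v * F (x + v * Real.exp t, t) = 0 := by
    intro v
    by_cases hv : θ v = 0
    · simp [hv]
    · rw [hcon v (hB v hv), mul_zero]
  simp only [this]
  simp

theorem SHF_main (θ : ℝ → ℝ) (L B : ℝ) (F : ℝ × ℝ → ℝ) (hθ : TK θ) (_hL : 0 < L)
    (hBs : ∀ v, θ v ≠ 0 → |v| ≤ B) (hF : Continuous F) (hFc : HasCompactSupport F)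
    (n : ℤ) (t : ℝ) :
    SHF_c L (hp θ F) n t = fI θ (Real.pi * n / L * Real.exp t) * SHF_c L F n t := by
  have hθc := hθ.smooth.continuous
  obtain ⟨K, hK⟩ : ∃ K : ℝ, ∀ x t, F (x, t) ≠ 0 → |x| ≤ K := by
    obtain ⟨K, hK⟩ := hFc.isCompact.isBounded.exists_norm_le
    refine ⟨K, fun x t h => ?_⟩
    have h1 := hK (x, t) (subset_tsupport _ h)
    exact le_trans (by simp) h1
  have hint : Integrable (Function.uncurry fun (x v : ℝ) =>
      ((θ v : ℂ) * (F (x + v * Real.exp t, t) : ℂ)) *
        Complex.exp (-(Complex.I * (Real.pi * n / L * x : ℝ)))) (volume.prod volume) := by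
    refine Continuous.integrable_of_hasCompactSupport ?_ ?_
    · simp only [Function.uncurry_def]
      fun_prop
    · refine HasCompactSupport.intro (K := (Icc (-(K + B * Real.exp t)) (K + B * Real.exp t)) ×ˢ
        (Icc (-B) B)) (isCompact_Icc.prod isCompact_Icc) fun p hp => ?_
      by_contra h
      have h1 : ((θ p.2 : ℂ) * (F (p.1 + p.2 * Real.exp t, t) : ℂ)) ≠ 0 := left_ne_zero_of_mul h
      have h2 : θ p.2 ≠ 0 := by
        intro h0
        rw [h0] at h1
        simp at h1
      have h3 : F (p.1 + p.2 * Real.exp t, t) ≠ 0 := by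
        intro h0
        rw [h0] at h1
        simp at h1
      have h4 := hBs _ h2
      have h5 := hK _ _ h3
      have h6 : |p.1| ≤ K + B * Real.exp t := by
        have h7 : |p.1| ≤ |p.1 + p.2 * Real.exp t| + |p.2 * Real.exp t| := by
          have := abs_sub (p.1 + p.2 * Real.exp t) (p.2 * Real.exp t)
          simpa using this
        rw [abs_mul, abs_of_pos (Real.exp_pos t)] at h7
        have h8 := mul_le_mul_of_nonneg_right h4 (Real.exp_pos t).le
        linarith
      exact hp ⟨abs_le.1 h6, abs_le.1 h4⟩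
  have e1 : ∀ x : ℝ, ((hp θ F (x, t) : ℝ) : ℂ) *
      Complex.exp (-(Complex.I * (Real.pi * n / L * x : ℝ))) =
      ∫ v : ℝ, ((θ v : ℂ) * (F (x + v * Real.exp t, t) : ℂ)) *
        Complex.exp (-(Complex.I * (Real.pi * n / L * x : ℝ))) := by
    intro x
    rw [integral_mul_const]
    congr 1
    unfold hp
    rw [← integral_complex_ofReal]
    congr 1
    funext v
    push_cast
    rfl
  have e2 : ∀ v : ℝ, ∫ x : ℝ, ((θ v : ℂ) * (F (x + v * Real.exp t, t) : ℂ)) *
        Complex.exp (-(Complex.I * (Real.pi * n / L * x : ℝ))) =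
      ((θ v : ℂ) * Complex.exp (Complex.I * (Real.pi * n / L * Real.exp t * v : ℝ))) *
        ∫ x : ℝ, (F (x, t) : ℂ) * Complex.exp (-(Complex.I * (Real.pi * n / L * x : ℝ))) := by
    intro v
    have h := integral_add_right_eq_self (μ := (volume : Measure ℝ)) (fun y : ℝ =>
      ((θ v : ℂ) * Complex.exp (Complex.I * (Real.pi * n / L * Real.exp t * v : ℝ))) *
      ((F (y, t) : ℂ) * Complex.exp (-(Complex.I * (Real.pi * n / L * y : ℝ))))) (v * Real.exp t)
    beta_reduce at h
    rw [← integral_const_mul, ← h]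
    congr 1
    funext x
    have : Complex.exp (-(Complex.I * (Real.pi * n / L * x : ℝ))) =
        Complex.exp (Complex.I * (Real.pi * n / L * Real.exp t * v : ℝ)) *
        Complex.exp (-(Complex.I * (Real.pi * n / L * (x + v * Real.exp t) : ℝ))) := by
      rw [← Complex.exp_add]
      congr 1
      push_cast
      ring
    rw [this]
    ring
  unfold SHF_c
  simp only [e1]
  rw [integral_integral_swap hint]
  simp only [e2]
  rw [integral_mul_const]
  unfold fI
  ring

theorem SHF : SHF_stmt := by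
  intro θ L B F hθ hL hB hBs hF hFc hFs
  have hc : Continuous (hp θ F) := SHF_hpcont θ F hθ hF hFc
  have hFs' : ∀ x t, F (x, t) ≠ 0 → |x| < L := by
    intro x t h
    have h1 := hFs x t h
    have h2 := mul_nonneg hB (Real.exp_pos t).le
    linarith
  have hsupp : ∀ x t, hp θ F (x, t) ≠ 0 → |x| < L := by
    intro x t h
    obtain ⟨v, hv, hne⟩ := SHF_hpne θ B F hBs x t h
    have h1 := hFs _ _ hne
    have h7 : |x| ≤ |x + v * Real.exp t| + |v * Real.exp t| := by
      have := abs_sub (x + v * Real.exp t) (v * Real.exp t)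
      simpa using this
    rw [abs_mul, abs_of_pos (Real.exp_pos t)] at h7
    have h8 := mul_le_mul_of_nonneg_right hv (Real.exp_pos t).le
    linarith
  refine ⟨hc, ?_, hsupp, fun n t => ⟨?_, ?_⟩⟩
  · refine HasCompactSupport.intro (K := (fun q : (ℝ × ℝ) × ℝ =>
      (q.1.1 - q.2 * Real.exp q.1.2, q.1.2)) '' (tsupport F ×ˢ Icc (-B) B)) ?_ fun p hp' => ?_
    · exact (hFc.isCompact.prod isCompact_Icc).image (by fun_prop)
    · by_contra h
      obtain ⟨v, hv, hne⟩ := SHF_hpne θ B F hBs p.1 p.2 h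
      refine hp' ⟨((p.1 + v * Real.exp p.2, p.2), v), ⟨subset_tsupport _ hne, abs_le.1 hv⟩, ?_⟩
      simp
  · rw [SHF_norm L _ n t hL hc (fun x => hsupp x t), SHF_norm L _ n t hL hF (fun x => hFs' x t),
      SHF_main θ L B F hθ hL hBs hF hFc n t, norm_mul, mul_pow]
  · have hdc : Continuous (fun p => F p - hp θ F p) := hF.sub hc
    have hds : ∀ x, (fun p => F p - hp θ F p) (x, t) ≠ 0 → |x| < L := by
      intro x h
      by_contra hcon
      have h1 : F (x, t) = 0 := by
        by_contra h0
        exact hcon (hFs' x t h0)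
      have h2 : hp θ F (x, t) = 0 := by
        by_contra h0
        exact hcon (hsupp x t h0)
      simp [h1, h2] at h
    rw [SHF_norm L _ n t hL hdc hds, SHF_norm L _ n t hL hF (fun x => hFs' x t)]
    have : SHF_c L (fun p => F p - hp θ F p) n t =
        (1 - fI θ (Real.pi * n / L * Real.exp t)) * SHF_c L F n t := by
      rw [sub_mul, one_mul, ← SHF_main θ L B F hθ hL hBs hF hFc n t,
        SHF_rel L _ n t hL hdc hds, SHF_rel L _ n t hL hc (fun x => hsupp x t),
        SHF_rel L _ n t hL hF (fun x => hFs' x t)]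
      obtain ⟨a1, a2⟩ := SHF_slice F L t hF (fun x => hFs' x t)
      obtain ⟨b1, b2⟩ := SHF_slice (hp θ F) L t hc (fun x => hsupp x t)
      have hC : fcC L (fun p => F p - hp θ F p) n t = fcC L F n t - fcC L (hp θ F) n t := by
        unfold fcC
        rw [← mul_sub, ← intervalIntegral.integral_sub]
        · congr 1
          congr 1
          funext x
          ring
        · exact Continuous.intervalIntegrable (by fun_prop) _ _
        · exact Continuous.intervalIntegrable (by fun_prop) _ _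
      have hS : fcS L (fun p => F p - hp θ F p) n t = fcS L F n t - fcS L (hp θ F) n t := by
        unfold fcS
        rw [← mul_sub, ← intervalIntegral.integral_sub]
        · congr 1
          congr 1
          funext x
          ring
        · exact Continuous.intervalIntegrable (by fun_prop) _ _
        · exact Continuous.intervalIntegrable (by fun_prop) _ _
      rw [hC, hS]
      push_cast
      ring
    rw [this, norm_mul, mul_pow]

end Pool.Agent.QX
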