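import Pool.Agent.helper37.QX.SDE

set_option autoImplicit false

open scoped MatrixGroups ContDiff Topology
open MeasureTheory ProbabilityTheory Filter Set Polynomial
open Pool.Agent.QU Pool.Agent.RP

namespace Pool.Agent.QX

theorem GEN_congr {α : Type} [AddCommMonoid α] (i : Fin 4) (w : Wd)
    (F G : Wd → Wd → α) (h : ∀ a b : Wd, a.length + b.length + 1 = w.length → F a b = G a b) :
    spl i w F = spl i w G := by
  unfold spl
  refine Finset.sum_congr rfl fun k hk => ?_
  have hk' := Finset.mem_range.1 hk
  split_ifs
  · refine h _ _ ?_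
    rw [List.length_take, List.length_drop]
    omega
  · rfl

theorem GEN_le (i : Fin 4) (w : Wd) (F : Wd → Wd → ℕ) (K : ℕ)
    (h : ∀ a b : Wd, a.length + b.length + 1 = w.length → F a b ≤ K) :
    spl i w F ≤ w.length * K := by
  unfold spl
  have h2 : ∀ k ∈ Finset.range w.length, (if w[k]? = some i then F (w.take k) (w.drop (k + 1))
      else 0) ≤ K := by
    intro k hk
    have hk' := Finset.mem_range.1 hk
    split_ifs
    · refine h _ _ ?_
      rw [List.length_take, List.length_drop]
      omega
    · exact Nat.zero_le _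
  have h3 := Finset.sum_le_card_nsmul _ _ _ h2
  simpa using h3

theorem GEN_sumlen (W : List Wd) :
    ∑ j ∈ Finset.range W.length, (W.getD j []).length = (W.map List.length).sum := by
  induction W with
  | nil => simp
  | cons w W ih =>
    rw [List.length_cons, Finset.sum_range_succ']
    simp only [List.getD_cons_succ, List.getD_cons_zero, List.map_cons, List.sum_cons]
    rw [ih]
    omega

theorem GEN_erase (W : List Wd) (j : ℕ) (hj : j < W.length) :
    ((W.eraseIdx j).map List.length).sum + (W.getD j []).length = (W.map List.length).sum ∧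
      (W.eraseIdx j).length + 1 = W.length := by
  induction W generalizing j with
  | nil => simp at hj
  | cons w W ih =>
    cases j with
    | zero => simp [add_comm]
    | succ j =>
      have := ih j (by simpa using hj)
      constructor
      · simp only [List.eraseIdx_cons_succ, List.map_cons, List.sum_cons, List.getD_cons_succ]
        omega
      · simp only [List.eraseIdx_cons_succ, List.length_cons]
        omega

theorem GEN_gm (m : ℕ) (hm : 1 ≤ m) : (m - 1) * gm (m - 2) = gm m := by
  match m with
  | 1 => simp [gm]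
  | m + 2 => simp [gm]

/-- the required property -/
def GEN_good (W : List Wd) (P : Polynomial ℕ) : Prop :=
  (∀ N : ℕ, 1 ≤ N → EW N W = P.eval₂ (Nat.castRingHom ℂ) (((N : ℂ)⁻¹) ^ 2)) ∧
  P.eval 1 ≤ gm (W.map List.length).sum ∧ (P.coeff 0 : ℂ) = (W.map ta).prod

theorem GEN_nil : GEN_good [] 1 := by
  refine ⟨fun N _ => ?_, ?_, ?_⟩
  · unfold EW
    have : IsProbabilityMeasure (gau (GI N)) := by
      unfold gau
      infer_instance
    simp
  · simp [gm]
  · simp

theorem GEN_cons0 (hT : TAU_stmt) (W : List Wd) (P : Polynomial ℕ) (h : GEN_good W P) :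
    GEN_good ([] :: W) P := by
  refine ⟨fun N hN => ?_, ?_, ?_⟩
  · rw [← h.1 N hN]
    unfold EW
    congr 1
    funext x
    rw [List.map_cons, List.prod_cons]
    have : ntr (XW x ([] : Wd)) = 1 := by
      have hN0 : (N : ℂ) ≠ 0 := by exact_mod_cast (by omega : N ≠ 0)
      simp [ntr, XW, hN0]
    rw [this, one_mul]
  · simpa using h.2.1
  · rw [List.map_cons, List.prod_cons, hT.1, one_mul]
    exact h.2.2

/-- the measure of the induction -/
def GEN_m (W : List Wd) : ℕ := (W.map List.length).sum + W.length

theorem GEN_main (hSDE : SDE_stmt) (hT : TAU_stmt) (i : Fin 4) (w : Wd) (W : List Wd)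
    (P : List Wd → Polynomial ℕ)
    (hP : ∀ W' : List Wd, GEN_m W' < GEN_m ((i :: w) :: W) → GEN_good W' (P W')) :
    ∃ Q, GEN_good ((i :: w) :: W) Q := by
  have hA : ∀ a b : Wd, a.length + b.length + 1 = w.length → GEN_good (a :: b :: W) (P (a :: b :: W)) := by
    intro a b h
    refine hP _ ?_
    simp only [GEN_m, List.map_cons, List.sum_cons, List.length_cons]
    omega
  have hB : ∀ j ∈ Finset.range W.length, ∀ a b : Wd, a.length + b.length + 1 = (W.getD j []).length →
      GEN_good ((w ++ b ++ a) :: W.eraseIdx j) (P ((w ++ b ++ a) :: W.eraseIdx j)) := by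
    intro j hj a b h
    refine hP _ ?_
    have he := GEN_erase W j (Finset.mem_range.1 hj)
    simp only [GEN_m, List.map_cons, List.sum_cons, List.length_cons, List.length_append]
    omega
  set m := (((i :: w) :: W).map List.length).sum with hm
  have hm1 : m = w.length + 1 + (W.map List.length).sum := by
    simp [hm]
  refine ⟨spl i w (fun a b => P (a :: b :: W)) + Polynomial.X * ∑ j ∈ Finset.range W.length,
    spl i (W.getD j []) (fun a b => P ((w ++ b ++ a) :: W.eraseIdx j)), fun N hN => ?_, ?_, ?_⟩
  · rw [hSDE N i w W hN, Polynomial.eval₂_add, Polynomial.eval₂_mul, Polynomial.eval₂_X,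
      Polynomial.eval₂_finsetSum]
    refine congrArg₂ (· + ·) ?_ (congrArg₂ (· * ·) rfl (Finset.sum_congr rfl fun j hj => ?_))
    · have h := SDE_map (Polynomial.eval₂AddMonoidHom (Nat.castRingHom ℂ) (((N : ℂ)⁻¹) ^ 2)) i w
        (fun a b => P (a :: b :: W))
      refine Eq.trans ?_ h.symm
      exact GEN_congr i w _ _ fun a b hab => (hA a b hab).1 N hN
    · have h := SDE_map (Polynomial.eval₂AddMonoidHom (Nat.castRingHom ℂ) (((N : ℂ)⁻¹) ^ 2)) i
        (W.getD j []) (fun a b => P ((w ++ b ++ a) :: W.eraseIdx j))
      refine Eq.trans ?_ h.symm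
      exact GEN_congr i _ _ _ fun a b hab => (hB j hj a b hab).1 N hN
  · rw [← hm, Polynomial.eval_add, Polynomial.eval_mul, Polynomial.eval_X, one_mul,
      Polynomial.eval_finsetSum]
    have h1 : Polynomial.eval 1 (spl i w (fun a b => P (a :: b :: W))) ≤ w.length * gm (m - 2) := by
      have h := SDE_map (Polynomial.evalRingHom (1 : ℕ)).toAddMonoidHom i w
        (fun a b => P (a :: b :: W))
      have h' : Polynomial.eval 1 (spl i w (fun a b => P (a :: b :: W))) =
        spl i w (fun a b => Polynomial.eval 1 (P (a :: b :: W))) := h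
      rw [h']
      refine GEN_le i w _ _ fun a b hab => ?_
      have := (hA a b hab).2.1
      simp only [List.map_cons, List.sum_cons] at this
      have e : a.length + (b.length + (W.map List.length).sum) = m - 2 := by omega
      rwa [e] at this
    have h2 : ∀ j ∈ Finset.range W.length, Polynomial.eval 1 (spl i (W.getD j [])
        (fun a b => P ((w ++ b ++ a) :: W.eraseIdx j))) ≤ (W.getD j []).length * gm (m - 2) := by
      intro j hj
      have h := SDE_map (Polynomial.evalRingHom (1 : ℕ)).toAddMonoidHom i (W.getD j [])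
        (fun a b => P ((w ++ b ++ a) :: W.eraseIdx j))
      have h' : Polynomial.eval 1 (spl i (W.getD j []) (fun a b => P ((w ++ b ++ a) ::
        W.eraseIdx j))) = spl i (W.getD j []) (fun a b => Polynomial.eval 1 (P ((w ++ b ++ a) ::
        W.eraseIdx j))) := h
      rw [h']
      refine GEN_le i _ _ _ fun a b hab => ?_
      have := (hB j hj a b hab).2.1
      simp only [List.map_cons, List.sum_cons, List.length_append] at this
      have he := (GEN_erase W j (Finset.mem_range.1 hj)).1
      have e : w.length + b.length + a.length + ((W.eraseIdx j).map List.length).sum = m - 2 := by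
        omega
      rwa [e] at this
    have h3 := Finset.sum_le_sum h2
    rw [← Finset.sum_mul, GEN_sumlen] at h3
    calc _ ≤ w.length * gm (m - 2) + (W.map List.length).sum * gm (m - 2) := Nat.add_le_add h1 h3
      _ = (m - 1) * gm (m - 2) := by
        rw [← add_mul]
        congr 1
        omega
      _ = gm m := GEN_gm m (by omega)
  · rw [Polynomial.coeff_add, Polynomial.mul_coeff_zero, Polynomial.coeff_X_zero, zero_mul,
      add_zero, List.map_cons, List.prod_cons, hT.2 i w]
    have h := SDE_map ((Nat.castRingHom ℂ).toAddMonoidHom.comp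
      (Polynomial.lcoeff ℕ 0).toAddMonoidHom) i w (fun a b => P (a :: b :: W))
    have h' : ((Polynomial.coeff (spl i w (fun a b => P (a :: b :: W))) 0 : ℕ) : ℂ) =
        spl i w (fun a b => (((P (a :: b :: W)).coeff 0 : ℕ) : ℂ)) := h
    rw [h']
    have h4 := SDE_map (AddMonoidHom.mulRight (W.map ta).prod) i w (fun a b => ta a * ta b)
    refine Eq.trans ?_ h4.symm
    refine GEN_congr i w _ _ fun a b hab => ?_
    rw [(hA a b hab).2.2]
    simp [mul_assoc]

theorem GEN (hSDE : SDE_stmt) (hTAU : TAU_stmt) : GEN_stmt := by
  have key : ∀ n : ℕ, ∀ W : List Wd, GEN_m W = n → ∃ P, GEN_good W P := by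
    intro n
    induction n using Nat.strong_induction_on with
    | _ n ih =>
      intro W hW
      match W with
      | [] => exact ⟨1, GEN_nil⟩
      | [] :: W' =>
        obtain ⟨P, hP⟩ := ih (GEN_m W') (by
          rw [← hW]
          simp [GEN_m]) W' rfl
        exact ⟨P, GEN_cons0 hTAU W' P hP⟩
      | (i :: w) :: W' =>
        have H : ∀ V : List Wd, GEN_m V < GEN_m ((i :: w) :: W') → ∃ P, GEN_good V P := by
          intro V hV
          exact ih (GEN_m V) (hW ▸ hV) V rfl
        choose! P hP using H
        exact GEN_main hSDE hTAU i w W' P hP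
  intro W
  exact key _ W rfl

end Pool.Agent.QX
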