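import Pool.Agent.helper37.QX.SDE

set_option autoImplicit false

open scoped MatrixGroups ContDiff Topology
open MeasureTheory ProbabilityTheory Filter Set Polynomial
open Pool.Agent.QU Pool.Agent.RP

namespace Pool.Agent.QX

theorem PDX_splcons {α : Type} [AddCommMonoid α] (i j : Fin 4) (w : Wd) (F : Wd → Wd → α) :
    spl i (j :: w) F = spl i w (fun a b => F (j :: a) b) + (if j = i then F [] w else 0) := by
  unfold spl
  rw [List.length_cons, Finset.sum_range_succ']
  simp

theorem PDX_one {N : ℕ} (q : GI N) :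
    (1 : Matrix (Fin N) (Fin N) (MvPolynomial (GI N) ℂ)).map (MvPolynomial.pderiv q) = 0 := by
  ext1 a b
  simp only [Matrix.map_apply, Matrix.zero_apply, Matrix.one_apply]
  split_ifs
  · exact MvPolynomial.pderiv_one
  · exact map_zero _

theorem PDX_XP (N : ℕ) (i j : Fin 4) (p : Fin N × Fin N × Bool) :
    (XP N j).map (MvPolynomial.pderiv ((i, p) : GI N)) = if j = i then
      ((MvPolynomial.C ((Real.sqrt N)⁻¹ : ℂ) : MvPolynomial (GI N) ℂ) •
      ((BM p).map MvPolynomial.C : Matrix (Fin N) (Fin N) (MvPolynomial (GI N) ℂ))) else 0 := by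
  unfold XP
  have h1 : ∀ (q : Fin N × Fin N × Bool),
      ((MvPolynomial.C ((Real.sqrt N)⁻¹ : ℂ) * MvPolynomial.X (j, q) : MvPolynomial (GI N) ℂ) •
        ((BM q).map MvPolynomial.C : Matrix (Fin N) (Fin N) (MvPolynomial (GI N) ℂ))).map
        (MvPolynomial.pderiv ((i, p) : GI N)) = if (j, q) = (i, p) then
        ((MvPolynomial.C ((Real.sqrt N)⁻¹ : ℂ) : MvPolynomial (GI N) ℂ) •
      ((BM q).map MvPolynomial.C : Matrix (Fin N) (Fin N) (MvPolynomial (GI N) ℂ))) else 0 := by
    intro q
    split_ifs with h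
    · ext1 a b
      simp only [Matrix.map_apply, Matrix.smul_apply, smul_eq_mul, Derivation.leibniz,
        MvPolynomial.pderiv_C]
      rw [h, MvPolynomial.pderiv_X_self]
      simp [mul_comm]
    · ext1 a b
      simp only [Matrix.map_apply, Matrix.smul_apply, smul_eq_mul, Derivation.leibniz,
        MvPolynomial.pderiv_C, Matrix.zero_apply]
      rw [MvPolynomial.pderiv_X_of_ne h]
      simp
  have h2 : (∑ q : Fin N × Fin N × Bool,
      ((MvPolynomial.C ((Real.sqrt N)⁻¹ : ℂ) * MvPolynomial.X (j, q) : MvPolynomial (GI N) ℂ) •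
        ((BM q).map MvPolynomial.C : Matrix (Fin N) (Fin N) (MvPolynomial (GI N) ℂ)))).map
        (MvPolynomial.pderiv ((i, p) : GI N)) = ∑ q : Fin N × Fin N × Bool,
      ((MvPolynomial.C ((Real.sqrt N)⁻¹ : ℂ) * MvPolynomial.X (j, q) : MvPolynomial (GI N) ℂ) •
        ((BM q).map MvPolynomial.C : Matrix (Fin N) (Fin N) (MvPolynomial (GI N) ℂ))).map
        (MvPolynomial.pderiv ((i, p) : GI N)) := by
    ext1 a b
    simp only [Matrix.map_apply, Matrix.sum_apply, map_sum]
  rw [h2]
  simp only [h1]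
  by_cases hj : j = i
  · subst hj
    simp
  · simp [hj]

theorem PDX : PDX_stmt := by
  intro N i p w
  induction w with
  | nil =>
    have : XPW N [] = 1 := by simp [XPW]
    rw [this, PDX_one]
    simp [spl]
  | cons j w ih =>
    have : XPW N (j :: w) = XP N j * XPW N w := by simp [XPW]
    rw [this, SDE_mapmul, ih, PDX_XP, PDX_splcons, add_comm]
    refine congrArg₂ (· + ·) ?_ ?_
    · have h := SDE_map (AddMonoidHom.mulLeft (XP N j)) i w (fun a b =>
        XPW N a * ((MvPolynomial.C ((Real.sqrt N)⁻¹ : ℂ) : MvPolynomial (GI N) ℂ) •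
      ((BM p).map MvPolynomial.C : Matrix (Fin N) (Fin N) (MvPolynomial (GI N) ℂ))) * XPW N b)
      refine Eq.trans h ?_
      refine SDE_congr i w _ _ fun a b => ?_
      simp [XPW, Matrix.mul_assoc]
    · split_ifs
      · simp [XPW]
      · simp

end Pool.Agent.QX
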