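import Pool.Agent.helper37.QX.SpecG

set_option autoImplicit false

open scoped MatrixGroups ContDiff Topology
open MeasureTheory ProbabilityTheory Filter Set Polynomial
open Pool.Agent.QU Pool.Agent.RP

namespace Pool.Agent.QX

theorem VAN0_claim (hPNJ : PNJ_stmt) (hCTJ : CTJ_stmt) (c : ℝ) (hc : Jf c = 0)
    (L : List (Fin 4 × Bool)) : Alt L → ∀ s L', L = s :: L' → ∀ v : Wd, v.head? ≠ some s.1 →
      PsL c L v = 0 := by
  induction L with
  | nil =>
    intro _ s L' h
    simp at h
  | cons s L' ih =>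
    intro hL s₁ L₁ h v hv
    obtain ⟨rfl, rfl⟩ := List.cons.inj h
    have h0 : ∀ k : ℕ, 1 ≤ k → PsL c L' (List.replicate k s.1 ++ v) = 0 := by
      intro k hk
      obtain ⟨k, rfl⟩ := Nat.exists_eq_succ_of_ne_zero (by omega : k ≠ 0)
      match L', hL, ih with
      | [], _, _ =>
        simp [PsL, e0, List.replicate_succ]
      | t :: L'', hL, ih =>
        unfold Alt at hL
        rw [List.isChain_cons_cons] at hL
        refine ih hL.2 t L'' rfl _ ?_
        simp only [List.replicate_succ, List.cons_append, List.head?_cons]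
        intro he
        exact hL.1 (Option.some.inj he)
    show EO (zs c s.2) s.1 (PsL c L') v = 0
    unfold EO
    have h1 : ∀ j : ℕ, ((SO s.1)^[j] (PsL c L')) v = ta (List.replicate j s.1) * PsL c L' v :=
      fun j => hPNJ s.1 j (PsL c L') v hv h0
    simp only [h1, ← mul_assoc]
    rw [tsum_mul_right, (hCTJ c s.1 s.2).tsum_eq, hc]
    simp

theorem VAN0 (hPNJ : PNJ_stmt) (hCTJ : CTJ_stmt) (_hVRC : VRC_stmt) : VAN0_stmt := by
  intro c hc L hL hA
  match L, hL, hA with
  | s :: L', _, hA => exact VAN0_claim hPNJ hCTJ c hc (s :: L') hA s L' rfl [] (by simp)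

end Pool.Agent.QX
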