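import Pool.Agent.helper37.QX.SDE
import Pool.Agent.helper37.QX.PDX
import Pool.Agent.helper37.QX.GEN
import Pool.Agent.helper37.QX.VAN0
import Pool.Agent.helper80.QX.GMO
import Pool.Agent.helper80.QX.STN
import Pool.Agent.helper80.QX.INX
import Pool.Agent.helper80.QX.EXS
import Pool.Agent.helper70.QX.FRA
import Pool.Agent.helper70.QX.HSN
import Pool.Agent.helper70.QX.XLP
import Pool.Agent.helper70.QX.ULP
import Pool.Agent.helper75.QX.TAU
import Pool.Agent.helper64.QX.TTS
import Pool.Agent.helper99.QX.VRC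
import Pool.Agent.helper99.QX.CTJ
import Pool.Agent.helper32.QX.EXL
import Pool.Agent.helper30.QX.PNJ
import Pool.Agent.helper72.QX.JZ
import Pool.Agent.helper92.QX.ULW
import Pool.Agent.helper17.QX.ALT
import Pool.Agent.helper49.QX.EXW

/-!
# The targets of part G of project QX
-/

namespace Pool.Agent.QX

theorem EXW_all : EXW_stmt :=
  EXW (EXL (GEN (SDE (STN GMO) FRA PDX) TAU) TTS (EXS (HSN FRA) INX) VRC) TTS JZ
    (VAN0 PNJ (CTJ TAU) VRC) ULW ALT

theorem ULP_all : ULP_stmt := ULP (HSN FRA) XLP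

end Pool.Agent.QX
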