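import Pool.Agent.helper37.QX.SpecG

set_option autoImplicit false

open scoped MatrixGroups ContDiff Topology
open MeasureTheory ProbabilityTheory Filter Set Polynomial
open Pool.Agent.QU Pool.Agent.RP

namespace Pool.Agent.QX

theorem SDE_map {α β : Type} [AddCommMonoid α] [AddCommMonoid β] (φ : α →+ β) (i : Fin 4) (w : Wd)
    (F : Wd → Wd → α) : φ (spl i w F) = spl i w (fun a b => φ (F a b)) := by
  unfold spl
  rw [map_sum]
  refine Finset.sum_congr rfl fun k _ => ?_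
  split_ifs
  · rfl
  · exact map_zero φ

theorem SDE_congr {α : Type} [AddCommMonoid α] (i : Fin 4) (w : Wd)
    (F G : Wd → Wd → α) (h : ∀ a b, F a b = G a b) : spl i w F = spl i w G := by
  have : F = G := by
    funext a b
    exact h a b
  rw [this]

theorem SDE_sum {α ι : Type} [AddCommMonoid α] (s : Finset ι) (i : Fin 4) (w : Wd)
    (F : ι → Wd → Wd → α) :
    ∑ p ∈ s, spl i w (F p) = spl i w (fun a b => ∑ p ∈ s, F p a b) := by
  unfold spl
  rw [Finset.sum_comm]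
  refine Finset.sum_congr rfl fun k _ => ?_
  split_ifs
  · rfl
  · simp

theorem SDE_integrable {X : Type} [MeasurableSpace X] (μ : Measure X) (i : Fin 4) (w : Wd)
    (F : Wd → Wd → X → ℂ) (h : ∀ a b, Integrable (F a b) μ) :
    Integrable (fun x => spl i w (fun a b => F a b x)) μ := by
  unfold spl
  refine integrable_finsetSum _ fun k _ => ?_
  split_ifs
  · exact h _ _
  · exact integrable_zero _ _ _

theorem SDE_integral {X : Type} [MeasurableSpace X] (μ : Measure X) (i : Fin 4) (w : Wd)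
    (F : Wd → Wd → X → ℂ) (h : ∀ a b, Integrable (F a b) μ) :
    ∫ x, spl i w (fun a b => F a b x) ∂μ = spl i w (fun a b => ∫ x, F a b x ∂μ) := by
  unfold spl
  rw [integral_finsetSum]
  · refine Finset.sum_congr rfl fun k _ => ?_
    split_ifs
    · rfl
    · simp
  · intro k _
    split_ifs
    · exact h _ _
    · exact integrable_zero _ _ _

/-- normalised trace of matrices with polynomial entries -/
noncomputable def SDE_pn {N : ℕ} (M : Matrix (Fin N) (Fin N) (MvPolynomial (GI N) ℂ)) :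
    MvPolynomial (GI N) ℂ := MvPolynomial.C ((N : ℂ)⁻¹) * M.trace

theorem SDE_evC {ι : Type} (x : ι → ℝ) (z : ℂ) : evx x (MvPolynomial.C z) = z := by
  simp [evx]

theorem SDE_pn_ev {N : ℕ} (x : GI N → ℝ) (M : Matrix (Fin N) (Fin N) (MvPolynomial (GI N) ℂ)) :
    evx x (SDE_pn M) = ntr ((evx x).mapMatrix M) := by
  unfold SDE_pn ntr
  rw [map_mul, SDE_evC]
  congr 1
  simp [Matrix.trace, map_sum]

/-- the product of normalised traces as a polynomial -/
noncomputable def SDE_Q (N : ℕ) (W : List Wd) : MvPolynomial (GI N) ℂ :=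
  (W.map (fun w => SDE_pn (XPW N w))).prod

theorem SDE_Q_ev {N : ℕ} (x : GI N → ℝ) (W : List Wd) :
    evx x (SDE_Q N W) = (W.map (fun w => ntr (XW x w))).prod := by
  unfold SDE_Q
  rw [map_list_prod, List.map_map]
  congr 1
  refine List.map_congr_left fun w _ => ?_
  simp only [Function.comp]
  rw [SDE_pn_ev, XPW_ev]

theorem SDE_EW (N : ℕ) (W : List Wd) : EW N W = ∫ x, evx x (SDE_Q N W) ∂(gau (GI N)) := by
  unfold EW
  simp only [SDE_Q_ev]

theorem SDE_Q_cons (N : ℕ) (w : Wd) (W : List Wd) :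
    SDE_Q N (w :: W) = SDE_pn (XPW N w) * SDE_Q N W := by
  simp [SDE_Q]

/-- product rule for products of lists -/
theorem SDE_leib {S R : Type} [CommRing S] [CommRing R] [Algebra S R] (D : Derivation S R R) (f : Wd → R) (W : List Wd) :
    D ((W.map f).prod) = ∑ j ∈ Finset.range W.length, D (f (W.getD j [])) *
      ((W.eraseIdx j).map f).prod := by
  induction W with
  | nil => simp
  | cons w W ih =>
    rw [List.map_cons, List.prod_cons, Derivation.leibniz, ih, List.length_cons,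
      Finset.sum_range_succ', smul_eq_mul, smul_eq_mul, Finset.mul_sum]
    congr 1
    · refine Finset.sum_congr rfl fun j _ => ?_
      simp only [List.getD_cons_succ, List.eraseIdx_cons_succ, List.map_cons, List.prod_cons]
      ring
    · simp only [List.getD_cons_zero, List.eraseIdx_cons_zero]
      ring


theorem SDE_mapmul {N : ℕ} {S R : Type} [CommRing S] [CommRing R] [Algebra S R]
    (D : Derivation S R R) (A B : Matrix (Fin N) (Fin N) R) :
    (A * B).map D = A.map D * B + A * B.map D := by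
  ext a b
  simp only [Matrix.map_apply, Matrix.mul_apply, Matrix.add_apply, map_sum, Derivation.leibniz,
    smul_eq_mul, Finset.sum_add_distrib]
  rw [add_comm]
  congr 1
  exact Finset.sum_congr rfl fun _ _ => mul_comm _ _

theorem SDE_mapC {N : ℕ} (q : GI N) (B : Matrix (Fin N) (Fin N) ℂ) :
    (B.map (MvPolynomial.C : ℂ →+* MvPolynomial (GI N) ℂ)).map (MvPolynomial.pderiv q) = 0 := by
  ext1 a b
  simp only [Matrix.map_apply, Matrix.zero_apply]
  exact MvPolynomial.pderiv_C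

theorem SDE_dpn {N : ℕ} (q : GI N) (M : Matrix (Fin N) (Fin N) (MvPolynomial (GI N) ℂ)) :
    MvPolynomial.pderiv q (SDE_pn M) = SDE_pn (M.map (MvPolynomial.pderiv q)) := by
  unfold SDE_pn
  rw [Derivation.leibniz, MvPolynomial.pderiv_C, smul_zero, add_zero, smul_eq_mul]
  congr 1
  simp [Matrix.trace, map_sum]

/-- `B_p` with constant polynomial entries -/
noncomputable def SDE_B {N : ℕ} (p : Fin N × Fin N × Bool) :
    Matrix (Fin N) (Fin N) (MvPolynomial (GI N) ℂ) := (BM p).map MvPolynomial.C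

theorem SDE_B_ev {N : ℕ} (x : GI N → ℝ) (p : Fin N × Fin N × Bool) :
    (evx x).mapMatrix (SDE_B p) = BM p := by
  ext a b
  simp [SDE_B, evx, RingHom.mapMatrix_apply]

/-- the derivative of the words, evaluated -/
theorem SDE_dev (hPDX : PDX_stmt) {N : ℕ} (x : GI N → ℝ) (i : Fin 4) (p : Fin N × Fin N × Bool)
    (w : Wd) : (evx x).mapMatrix ((XPW N w).map (MvPolynomial.pderiv ((i, p) : GI N))) =
      spl i w (fun a b => ((Real.sqrt N)⁻¹ : ℂ) • (XW x a * BM p * XW x b)) := by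
  rw [hPDX N i p w]
  have h := SDE_map ((evx x).mapMatrix (m := Fin N)).toAddMonoidHom i w (fun a b =>
    XPW N a * ((MvPolynomial.C ((Real.sqrt N)⁻¹ : ℂ) : MvPolynomial (GI N) ℂ) •
      ((BM p).map MvPolynomial.C : Matrix (Fin N) (Fin N) (MvPolynomial (GI N) ℂ))) * XPW N b)
  refine Eq.trans h ?_
  refine SDE_congr i w _ _ fun a b => ?_
  have e : ∀ M, ((evx x).mapMatrix (m := Fin N)).toAddMonoidHom M = (evx x).mapMatrix M :=
    fun _ => rfl
  rw [e, map_mul, map_mul, XPW_ev, XPW_ev]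
  have h2 : (evx x).mapMatrix ((MvPolynomial.C ((Real.sqrt N)⁻¹ : ℂ) : MvPolynomial (GI N) ℂ) •
      ((BM p).map MvPolynomial.C : Matrix (Fin N) (Fin N) (MvPolynomial (GI N) ℂ))) =
      ((Real.sqrt N)⁻¹ : ℂ) • BM p := by
    ext a b
    simp [evx, RingHom.mapMatrix_apply]
  rw [h2]
  simp [Matrix.mul_assoc]

/-- the polynomial `G_p` -/
noncomputable def SDE_G (N : ℕ) (w : Wd) (W : List Wd) (p : Fin N × Fin N × Bool) :
    MvPolynomial (GI N) ℂ := SDE_pn (SDE_B p * XPW N w) * SDE_Q N W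

theorem SDE_G_ev {N : ℕ} (x : GI N → ℝ) (w : Wd) (W : List Wd) (p : Fin N × Fin N × Bool) :
    evx x (SDE_G N w W p) = ntr (BM p * XW x w) * evx x (SDE_Q N W) := by
  unfold SDE_G
  rw [map_mul, SDE_pn_ev, map_mul, SDE_B_ev, XPW_ev]

/-- normalised trace as an additive map -/
noncomputable def SDE_ntr (N : ℕ) : Matrix (Fin N) (Fin N) ℂ →+ ℂ where
  toFun := ntr
  map_zero' := by simp [ntr]
  map_add' A B := by simp [ntr, mul_add]

/-- the derivative of `G_p`, evaluated -/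
theorem SDE_dG (hPDX : PDX_stmt) {N : ℕ} (x : GI N → ℝ) (i : Fin 4) (p : Fin N × Fin N × Bool)
    (w : Wd) (W : List Wd) :
    evx x (MvPolynomial.pderiv ((i, p) : GI N) (SDE_G N w W p)) =
      spl i w (fun a b => ((Real.sqrt N)⁻¹ : ℂ) * ntr (BM p * XW x a * BM p * XW x b)) *
        evx x (SDE_Q N W) +
      ∑ j ∈ Finset.range W.length, spl i (W.getD j []) (fun a b =>
        ((Real.sqrt N)⁻¹ : ℂ) * ntr (BM p * XW x w) * ntr (XW x a * BM p * XW x b) *
          evx x (SDE_Q N (W.eraseIdx j))) := by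
  unfold SDE_G
  rw [Derivation.leibniz, map_add, smul_eq_mul, smul_eq_mul, map_mul, map_mul, add_comm]
  congr 1
  · rw [mul_comm]
    congr 1
    rw [SDE_dpn, SDE_mapmul]
    have h0 : (SDE_B p).map (MvPolynomial.pderiv ((i, p) : GI N)) = 0 := SDE_mapC _ _
    rw [h0, zero_mul, zero_add, SDE_pn_ev, map_mul, SDE_B_ev, SDE_dev hPDX]
    have h1 := SDE_map (AddMonoidHom.mulLeft (BM p)) i w
      (fun a b => ((Real.sqrt N)⁻¹ : ℂ) • (XW x a * BM p * XW x b))
    have h2 := SDE_map (SDE_ntr N) i w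
      (fun a b => BM p * (((Real.sqrt N)⁻¹ : ℂ) • (XW x a * BM p * XW x b)))
    simp only [AddMonoidHom.coe_mulLeft] at h1
    rw [h1]
    refine Eq.trans h2 ?_
    refine SDE_congr i w _ _ fun a b => ?_
    show ntr _ = _
    simp [ntr, Matrix.mul_assoc]
    ring
  · unfold SDE_Q
    rw [SDE_leib, map_sum, Finset.mul_sum]
    refine Finset.sum_congr rfl fun j _ => ?_
    rw [map_mul, SDE_dpn, SDE_pn_ev, SDE_pn_ev, SDE_dev hPDX, map_mul, SDE_B_ev, XPW_ev]
    have h2 := SDE_map (SDE_ntr N) i (W.getD j [])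
      (fun a b => (((Real.sqrt N)⁻¹ : ℂ) • (XW x a * BM p * XW x b)))
    have h3 : ntr (spl i (W.getD j []) (fun a b => (((Real.sqrt N)⁻¹ : ℂ) • (XW x a * BM p * XW x b))))
      = spl i (W.getD j []) (fun a b => ntr (((Real.sqrt N)⁻¹ : ℂ) • (XW x a * BM p * XW x b))) := h2
    rw [h3]
    have h4 := SDE_map ((AddMonoidHom.mulLeft (ntr (BM p * XW x w))).comp
      (AddMonoidHom.mulRight (evx x ((W.eraseIdx j).map (fun w => SDE_pn (XPW N w))).prod)))
      i (W.getD j []) (fun a b => ntr (((Real.sqrt N)⁻¹ : ℂ) • (XW x a * BM p * XW x b)))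
    simp only [AddMonoidHom.coe_comp, AddMonoidHom.coe_mulLeft, AddMonoidHom.coe_mulRight,
      Function.comp] at h4
    rw [h4]
    refine SDE_congr i _ _ _ fun a b => ?_
    simp [ntr]
    ring

theorem SDE_sq (N : ℕ) (_hN : 1 ≤ N) : ((Real.sqrt N)⁻¹ : ℂ) * ((Real.sqrt N)⁻¹ : ℂ) = (N : ℂ)⁻¹ := by
  rw [← mul_inv, ← Complex.ofReal_mul, Real.mul_self_sqrt (Nat.cast_nonneg N)]
  simp

/-- first sum over `p` -/
theorem SDE_s1 (hFRA : FRA_stmt) (N : ℕ) (hN : 1 ≤ N) (A B : Matrix (Fin N) (Fin N) ℂ) :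
    ∑ p : Fin N × Fin N × Bool, ((Real.sqrt N)⁻¹ : ℂ) * (((Real.sqrt N)⁻¹ : ℂ) *
      ntr (BM p * A * BM p * B)) = ntr A * ntr B := by
  have h : ∑ p : Fin N × Fin N × Bool, (BM p * A * BM p * B).trace = A.trace * B.trace := by
    rw [← Matrix.trace_sum, ← Finset.sum_mul, (hFRA N A).1]
    simp
  have h1 : ∀ p : Fin N × Fin N × Bool, ((Real.sqrt N)⁻¹ : ℂ) * (((Real.sqrt N)⁻¹ : ℂ) *
      ntr (BM p * A * BM p * B)) = ((N : ℂ)⁻¹ * (N : ℂ)⁻¹) * (BM p * A * BM p * B).trace := by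
    intro p
    rw [← mul_assoc, SDE_sq N hN]
    unfold ntr
    ring
  simp only [h1]
  rw [← Finset.mul_sum, h]
  unfold ntr
  ring

/-- second sum over `p` -/
theorem SDE_s2 (hFRA : FRA_stmt) (N : ℕ) (hN : 1 ≤ N) (M A B : Matrix (Fin N) (Fin N) ℂ) (z : ℂ) :
    ∑ p : Fin N × Fin N × Bool, ((Real.sqrt N)⁻¹ : ℂ) * (((Real.sqrt N)⁻¹ : ℂ) *
      ntr (BM p * M) * ntr (A * BM p * B) * z) = ((N : ℂ)⁻¹) ^ 2 * (ntr (M * B * A) * z) := by
  have h : ∑ p : Fin N × Fin N × Bool, (BM p * M).trace * (A * BM p * B).trace =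
      (M * B * A).trace := by
    have h0 : ∀ p : Fin N × Fin N × Bool, (BM p * M).trace * (A * BM p * B).trace =
        (((BM p * M).trace • BM p) * (B * A)).trace := by
      intro p
      rw [Matrix.smul_mul, Matrix.trace_smul, smul_eq_mul]
      congr 1
      rw [Matrix.mul_assoc, Matrix.trace_mul_comm, Matrix.mul_assoc]
    simp only [h0]
    rw [← Matrix.trace_sum, ← Finset.sum_mul, (hFRA N M).2, Matrix.mul_assoc]
  have h1 : ∀ p : Fin N × Fin N × Bool, ((Real.sqrt N)⁻¹ : ℂ) * (((Real.sqrt N)⁻¹ : ℂ) *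
      ntr (BM p * M) * ntr (A * BM p * B) * z) =
      ((N : ℂ)⁻¹ * (N : ℂ)⁻¹ * (N : ℂ)⁻¹ * z) * ((BM p * M).trace * (A * BM p * B).trace) := by
    intro p
    rw [← mul_assoc, ← mul_assoc, ← mul_assoc, SDE_sq N hN]
    unfold ntr
    ring
  simp only [h1]
  rw [← Finset.mul_sum, h]
  unfold ntr
  ring

/-- the pointwise identity -/
theorem SDE_pt (hFRA : FRA_stmt) (hPDX : PDX_stmt) {N : ℕ} (hN : 1 ≤ N) (x : GI N → ℝ) (i : Fin 4)
    (w : Wd) (W : List Wd) :
    ∑ p : Fin N × Fin N × Bool, ((Real.sqrt N)⁻¹ : ℂ) *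
      evx x (MvPolynomial.pderiv ((i, p) : GI N) (SDE_G N w W p)) =
      spl i w (fun a b => evx x (SDE_Q N (a :: b :: W))) +
      ((N : ℂ)⁻¹) ^ 2 * ∑ j ∈ Finset.range W.length, spl i (W.getD j []) (fun a b =>
        evx x (SDE_Q N ((w ++ b ++ a) :: W.eraseIdx j))) := by
  simp only [SDE_dG hPDX, mul_add, Finset.sum_add_distrib]
  congr 1
  · have h1 : ∀ p : Fin N × Fin N × Bool, ((Real.sqrt N)⁻¹ : ℂ) *
        (spl i w (fun a b => ((Real.sqrt N)⁻¹ : ℂ) * ntr (BM p * XW x a * BM p * XW x b)) *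
          evx x (SDE_Q N W)) =
        spl i w (fun a b => (((Real.sqrt N)⁻¹ : ℂ) * (((Real.sqrt N)⁻¹ : ℂ) *
          ntr (BM p * XW x a * BM p * XW x b))) * evx x (SDE_Q N W)) := by
      intro p
      have h4 := SDE_map ((AddMonoidHom.mulLeft ((Real.sqrt N)⁻¹ : ℂ)).comp
        (AddMonoidHom.mulRight (evx x (SDE_Q N W)))) i w
        (fun a b => ((Real.sqrt N)⁻¹ : ℂ) * ntr (BM p * XW x a * BM p * XW x b))
      simp only [AddMonoidHom.coe_comp, AddMonoidHom.coe_mulLeft, AddMonoidHom.coe_mulRight,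
        Function.comp] at h4
      rw [h4]
      refine SDE_congr i _ _ _ fun a b => ?_
      ring
    simp only [h1]
    rw [SDE_sum]
    refine SDE_congr i _ _ _ fun a b => ?_
    rw [← Finset.sum_mul, SDE_s1 hFRA N hN, SDE_Q_cons, SDE_Q_cons, map_mul, map_mul, SDE_pn_ev,
      SDE_pn_ev, XPW_ev, XPW_ev]
    ring
  · have h1 : ∀ p : Fin N × Fin N × Bool, ((Real.sqrt N)⁻¹ : ℂ) *
        ∑ j ∈ Finset.range W.length, spl i (W.getD j []) (fun a b =>
        ((Real.sqrt N)⁻¹ : ℂ) * ntr (BM p * XW x w) * ntr (XW x a * BM p * XW x b) *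
          evx x (SDE_Q N (W.eraseIdx j))) = ∑ j ∈ Finset.range W.length,
        spl i (W.getD j []) (fun a b => ((Real.sqrt N)⁻¹ : ℂ) *
        (((Real.sqrt N)⁻¹ : ℂ) * ntr (BM p * XW x w) * ntr (XW x a * BM p * XW x b) *
          evx x (SDE_Q N (W.eraseIdx j)))) := by
      intro p
      rw [Finset.mul_sum]
      refine Finset.sum_congr rfl fun j _ => ?_
      exact SDE_map (AddMonoidHom.mulLeft ((Real.sqrt N)⁻¹ : ℂ)) i (W.getD j []) _
    simp only [h1]
    rw [Finset.sum_comm, Finset.mul_sum]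
    refine Finset.sum_congr rfl fun j _ => ?_
    rw [SDE_sum]
    refine Eq.trans ?_ (SDE_map (AddMonoidHom.mulLeft (((N : ℂ)⁻¹) ^ 2)) i (W.getD j []) _).symm
    refine SDE_congr i _ _ _ fun a b => ?_
    rw [SDE_s2 hFRA N hN, SDE_Q_cons, map_mul, SDE_pn_ev, XPW_ev]
    simp only [AddMonoidHom.coe_mulLeft]
    have : XW x (w ++ b ++ a) = XW x w * XW x b * XW x a := by
      simp [XW, Matrix.mul_assoc]
    rw [this]

theorem SDE_XW_cons {N : ℕ} (x : GI N → ℝ) (i : Fin 4) (w : Wd) :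
    XW x (i :: w) = XM x i * XW x w := by
  simp [XW]

theorem SDE_lhs {N : ℕ} (x : GI N → ℝ) (i : Fin 4) (w : Wd) (W : List Wd) :
    evx x (SDE_Q N ((i :: w) :: W)) = ∑ p : Fin N × Fin N × Bool, ((Real.sqrt N)⁻¹ : ℂ) *
      ((x (i, p) : ℂ) * evx x (SDE_G N w W p)) := by
  rw [SDE_Q_cons, map_mul, SDE_pn_ev, XPW_ev, SDE_XW_cons]
  unfold XM
  simp only [SDE_G_ev]
  rw [Matrix.smul_mul, Finset.sum_mul]
  have h : ntr (((Real.sqrt N)⁻¹ : ℂ) • ∑ p : Fin N × Fin N × Bool,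
      ((x (i, p) : ℂ) • BM p) * XW x w) = ∑ p : Fin N × Fin N × Bool,
      ((Real.sqrt N)⁻¹ : ℂ) * ((x (i, p) : ℂ) * ntr (BM p * XW x w)) := by
    unfold ntr
    rw [Matrix.trace_smul, Matrix.trace_sum, smul_eq_mul, Finset.mul_sum, Finset.mul_sum]
    refine Finset.sum_congr rfl fun p _ => ?_
    rw [Matrix.smul_mul, Matrix.trace_smul, smul_eq_mul]
    ring
  rw [h, Finset.sum_mul]
  refine Finset.sum_congr rfl fun p _ => ?_
  ring

theorem SDE (hSTN : STN_stmt) (hFRA : FRA_stmt) (hPDX : PDX_stmt) : SDE_stmt := by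
  intro N i w W hN
  have hint : ∀ P : MvPolynomial (GI N) ℂ, Integrable (fun x => evx x P) (gau (GI N)) :=
    fun P => (hSTN (GI N) P).1
  have hxint : ∀ (q : GI N) (P : MvPolynomial (GI N) ℂ),
      Integrable (fun x : GI N → ℝ => (x q : ℂ) * evx x P) (gau (GI N)) := by
    intro q P
    have := hint (MvPolynomial.X q * P)
    simpa [evx] using this
  have h1 : EW N ((i :: w) :: W) = ∑ p : Fin N × Fin N × Bool, ((Real.sqrt N)⁻¹ : ℂ) *
      ∫ x, evx x (MvPolynomial.pderiv ((i, p) : GI N) (SDE_G N w W p)) ∂(gau (GI N)) := by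
    rw [SDE_EW]
    simp only [SDE_lhs]
    rw [integral_finsetSum _ fun p _ => (hxint _ _).const_mul _]
    refine Finset.sum_congr rfl fun p _ => ?_
    rw [integral_const_mul, (hSTN (GI N) (SDE_G N w W p)).2 (i, p)]
  have h2 : ∑ p : Fin N × Fin N × Bool, ((Real.sqrt N)⁻¹ : ℂ) *
      ∫ x, evx x (MvPolynomial.pderiv ((i, p) : GI N) (SDE_G N w W p)) ∂(gau (GI N)) =
      ∫ x, (spl i w (fun a b => evx x (SDE_Q N (a :: b :: W))) +
      ((N : ℂ)⁻¹) ^ 2 * ∑ j ∈ Finset.range W.length, spl i (W.getD j []) (fun a b =>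
        evx x (SDE_Q N ((w ++ b ++ a) :: W.eraseIdx j)))) ∂(gau (GI N)) := by
    simp only [← SDE_pt hFRA hPDX hN]
    rw [integral_finsetSum _ fun p _ => (hint _).const_mul _]
    refine Finset.sum_congr rfl fun p _ => ?_
    rw [integral_const_mul]
  rw [h1, h2, integral_add (SDE_integrable _ _ _ _ fun a b => hint _)
    ((integrable_finsetSum _ fun j _ => SDE_integrable _ _ _ _ fun a b => hint _).const_mul _),
    integral_const_mul, integral_finsetSum _ fun j _ => SDE_integrable _ _ _ _ fun a b => hint _,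
    SDE_integral _ _ _ _ fun a b => hint _]
  simp only [SDE_EW]
  congr 2
  refine Finset.sum_congr rfl fun j _ => ?_
  rw [SDE_integral _ _ _ _ fun a b => hint _]

end Pool.Agent.QX
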