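import Pool.Agent.helper4.QX.Defs

set_option autoImplicit false

/-!
# Project QX (MP_07c750), part G: words in independent GUE matrices and their exponentials. Rows `qg:X`

Prove `X_stmt` in `Pool/Agent/<seat>/QX/X.lean`, `import Pool.Agent.helper37.QX.SpecG`, namespace `Pool.Agent.QX`, auxiliary
lemmas prefixed `X_`. The theorem has the rows listed after the word from as hypotheses, in this order
(`theorem XX (hYY : YY_stmt) ... : XX_stmt`). Targets: `EXW_stmt`, `ULP_stmt` (of `Defs`).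

Plan. (1) Stein's lemma and the frame identities give the Schwinger-Dyson equations (SDE) for
`EW N W = E ∏_(w ∈ W) tr_N X_w` (normalised traces). By induction `EW N W` is a polynomial in `1/N²` with coefficients in `ℕ`, whose sum
is at most the number of pairings `gm m`, and whose constant term is `∏ ta w` (GEN); `ta w` is the vacuum expectation of
`S_w` on the full Fock space. (2) The exponentials `exp(± i c X_i)` are expanded in power series, one after another (EXL). (3) The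
constant term is a vacuum expectation, which vanishes for alternating words if `exp(i c S)` is centred (VAN, JZ).
-/

open scoped MatrixGroups ContDiff Topology
open MeasureTheory ProbabilityTheory Filter Set Polynomial
open Pool.Agent.QU Pool.Agent.RP

namespace Pool.Agent.QX

/-! ### Definitions -/

/-- words in the letters `X_0, ..., X_3` -/
abbrev Wd : Type := List (Fin 4)

/-- the product of the matrices `X_i`, `i ∈ w` -/
noncomputable def XW {N : ℕ} (x : GI N → ℝ) (w : Wd) : Matrix (Fin N) (Fin N) ℂ := (w.map (XM x)).prod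

/-- normalised trace -/
noncomputable def ntr {N : ℕ} (M : Matrix (Fin N) (Fin N) ℂ) : ℂ := (N : ℂ)⁻¹ * M.trace

/-- `E ∏_(w ∈ W) tr_N X_w` -/
noncomputable def EW (N : ℕ) (W : List Wd) : ℂ :=
  ∫ x, (W.map (fun w => ntr (XW x w))).prod ∂(gau (GI N))

/-- sum of `F a b` over all factorisations `w = a ++ i :: b` -/
def spl {α : Type} [AddCommMonoid α] (i : Fin 4) (w : Wd) (F : Wd → Wd → α) : α :=
  ∑ k ∈ Finset.range w.length, if w[k]? = some i then F (w.take k) (w.drop (k + 1)) else 0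

/-- the matrices `X_i` with polynomial entries -/
noncomputable def XP (N : ℕ) (i : Fin 4) : Matrix (Fin N) (Fin N) (MvPolynomial (GI N) ℂ) :=
  ∑ p : Fin N × Fin N × Bool, (MvPolynomial.C ((Real.sqrt N)⁻¹ : ℂ) * MvPolynomial.X (i, p)) •
    (BM p).map MvPolynomial.C

/-- the words with polynomial entries -/
noncomputable def XPW (N : ℕ) (w : Wd) : Matrix (Fin N) (Fin N) (MvPolynomial (GI N) ℂ) :=
  (w.map (XP N)).prod

/-- evaluation of polynomials at a real point -/
noncomputable def evx {ι : Type} (x : ι → ℝ) : MvPolynomial ι ℂ →+* ℂ :=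
  MvPolynomial.eval (fun i => (x i : ℂ))

theorem XP_ev {N : ℕ} (x : GI N → ℝ) (i : Fin 4) : (evx x).mapMatrix (XP N i) = XM x i := by
  unfold XP XM
  rw [map_sum, Finset.smul_sum]
  refine Finset.sum_congr rfl fun p _ => ?_
  ext a b
  simp [evx, RingHom.mapMatrix_apply, Matrix.smul_apply, mul_assoc]

/-- the matrices with polynomial entries evaluate to the matrices -/
theorem XPW_ev {N : ℕ} (x : GI N → ℝ) (w : Wd) : (evx x).mapMatrix (XPW N w) = XW x w := by
  unfold XPW XW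
  rw [map_list_prod, List.map_map]
  congr 1
  refine List.map_congr_left fun i _ => ?_
  exact XP_ev x i

/-- the number of pairings of `m` points -/
def gm : ℕ → ℕ
  | 0 => 1
  | 1 => 0
  | m + 2 => (m + 1) * gm m

/-- `∑ t^j/j! gm (m + j)`, the expectation of `ξ^m e^(tξ)` for a standard normal variable `ξ` -/
noncomputable def TT (m : ℕ) (t : ℝ) : ℝ := ∑' j : ℕ, t ^ j / (j.factorial : ℝ) * (gm (m + j) : ℝ)

/-- the operator `S_i = l_i + l_i^*` of the full Fock space, on all functions on words -/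
def SO (i : Fin 4) (ψ : Wd → ℂ) : Wd → ℂ
  | [] => ψ [i]
  | j :: v => (if j = i then ψ v else 0) + ψ (i :: j :: v)

/-- `S_u = S_(i_1) S_(i_2) ...` -/
def SW (u : Wd) (ψ : Wd → ℂ) : Wd → ℂ := u.foldr SO ψ

/-- the vacuum vector -/
def e0 : Wd → ℂ := fun v => if v = [] then 1 else 0

/-- vacuum expectation of `S_w` -/
def ta (w : Wd) : ℂ := SW w e0 []

/-- `exp(z S_i)` applied to a (bounded) function -/
noncomputable def EO (z : ℂ) (i : Fin 4) (ψ : Wd → ℂ) (v : Wd) : ℂ :=
  ∑' j : ℕ, z ^ j / (j.factorial : ℂ) * ((SO i)^[j] ψ) v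

/-- `± i c` -/
noncomputable def zs (c : ℝ) (b : Bool) : ℂ := if b then Complex.I * c else -(Complex.I * c)

/-- `exp(± i c S_(i_1)) exp(± i c S_(i_2)) ...` applied to the vacuum vector -/
noncomputable def PsL (c : ℝ) : List (Fin 4 × Bool) → (Wd → ℂ)
  | [] => e0
  | s :: L => EO (zs c s.2) s.1 (PsL c L)

/-- `exp(± i c X_i)` -/
noncomputable def ES {N : ℕ} (c : ℝ) (x : GI N → ℝ) (s : Fin 4 × Bool) : Matrix (Fin N) (Fin N) ℂ :=
  NormedSpace.exp (zs c s.2 • XM x s.1)

/-- `exp(± i c X_(i_1)) exp(± i c X_(i_2)) ...` -/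
noncomputable def EL {N : ℕ} (c : ℝ) (x : GI N → ℝ) (L : List (Fin 4 × Bool)) :
    Matrix (Fin N) (Fin N) ℂ := (L.map (ES c x)).prod

/-- the exponentials in the unitaries `U_a` (`true`) and `U_a^{-1}` (`false`) -/
def lq : Fin 2 × Bool → List (Fin 4 × Bool)
  | (a, true) => [(⟨2 * a.1, by omega⟩, true), (⟨2 * a.1 + 1, by omega⟩, true)]
  | (a, false) => [(⟨2 * a.1 + 1, by omega⟩, false), (⟨2 * a.1, by omega⟩, false)]

/-- the exponentials in the word `w` -/
def ltr (w : F2) : List (Fin 4 × Bool) := w.toWord.flatMap lq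

/-- neighbouring entries have different indices -/
def Alt (L : List (Fin 4 × Bool)) : Prop := L.IsChain (fun s t => s.1 ≠ t.1)

/-- `J(c) = ∑ (-1)^k c^(2k) / (k! (k+1)!)`, the vacuum expectation of `exp(i c S)` -/
noncomputable def Jf (c : ℝ) : ℝ :=
  ∑' k : ℕ, (-1 : ℝ) ^ k * c ^ (2 * k) / ((k.factorial : ℝ) * ((k + 1).factorial : ℝ))

/-! ### Block 1: Gaussian integrals of polynomials -/

/-- **Row GMO** (short-medium). From nothing. Moments of the standard normal distribution.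

PROOF. The density is `e^(-t²/2)/√(2π)` (`gaussianReal` has a density, `gaussianPDFReal`); all moments exist (for instance since
`exp(t)`, `exp(-t)` are integrable: `integrable_exp_mul_gaussianReal`, and `|t|^n ≤ n! (e^t + e^(-t))`). The derivative of
`t^(n+1) e^(-t²/2)` is `((n+1) t^n - t^(n+2)) e^(-t²/2)` and its integral over `ℝ` is `0`
(`integral_of_hasDerivAt_of_tendsto` or `integral_mul_deriv_eq_deriv_mul`). `∫ t = 0` (`integral_id_gaussianReal`). -/
def GMO_stmt : Prop := (∀ n : ℕ, Integrable (fun t : ℝ => t ^ n) (gaussianReal 0 1)) ∧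
  (∫ t : ℝ, t ∂(gaussianReal 0 1)) = 0 ∧
  ∀ n : ℕ, ∫ t : ℝ, t ^ (n + 2) ∂(gaussianReal 0 1) = (n + 1) * ∫ t : ℝ, t ^ n ∂(gaussianReal 0 1)

/-- **Row STN** (medium). From GMO. Stein's lemma for polynomials.

PROOF. Both sides are linear in `P`, so let `P = ∏ X_i^(n_i)` be a monomial (`MvPolynomial.induction_on'` or
`MvPolynomial.as_sum`). `evx x P = ∏ (x i)^(n i)` is integrable and its integral is the product of the 1-dimensional integrals
(`MeasureTheory.Integrable.fintype_prod`, `integral_fintype_prod_eq_prod`; `gau` is `Measure.pi`). For the two sides only the factor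
`p` differs: `∫ t^(n+1) = n ∫ t^(n-1)` for `n = n_p ≥ 1` (GMO; `n = 1`... `n + 1 = (n-1) + 2`), and `∫ t = 0` for `n_p = 0`, where
`pderiv p P = 0`. (`MvPolynomial.pderiv_monomial`.) -/
def STN_stmt : Prop := ∀ (ι : Type) [Fintype ι] [DecidableEq ι] (P : MvPolynomial ι ℂ),
  Integrable (fun x : ι → ℝ => evx x P) (gau ι) ∧
  ∀ p : ι, ∫ x, (x p : ℂ) * evx x P ∂(gau ι) = ∫ x, evx x (MvPolynomial.pderiv p P) ∂(gau ι)

/-- **Row FRA** (short-medium). From nothing. The frame identities.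

PROOF. Sum over the two values of the Boolean first: `(E_ab + E_ba) M (E_ab + E_ba)/4 - (E_ab - E_ba) M (E_ab - E_ba)/4 =
(E_ab M E_ba + E_ba M E_ab)/2` (`(i/2)² = -1/4`), and `E_ab M E_ba = M_bb E_aa`; the sum over `a, b` is
`(1/2) (∑ M_bb E_aa + ∑ M_aa E_bb) = Tr(M) 1`. Second identity: `Tr((E_ab + E_ba) M)(E_ab + E_ba)/4 -
Tr((E_ab - E_ba) M)(E_ab - E_ba)/4 = (Tr(E_ab M) E_ba + Tr(E_ba M) E_ab)/2`, `Tr(E_ab M) = M_ba`. Compare entries if
that is easier (`Matrix.ext`, `Fintype.sum_prod_type`, `Matrix.single_apply`). -/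
def FRA_stmt : Prop := ∀ (N : ℕ) (M : Matrix (Fin N) (Fin N) ℂ),
  ∑ p : Fin N × Fin N × Bool, BM p * M * BM p = M.trace • (1 : Matrix (Fin N) (Fin N) ℂ) ∧
  ∑ p : Fin N × Fin N × Bool, (BM p * M).trace • BM p = M

/-- **Row PDX** (short-medium). From nothing. Derivatives of the words.

PROOF. Entrywise `pderiv` is a derivation of the ring of matrices: `(A B).map D = A.map D * B + A * B.map D` (entries are sums
of products, `Derivation.leibniz`). `(XP N j).map (pderiv (i, p)) = if j = i then (C (√N)⁻¹) • (BM p).map C else 0`. Induction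
on `w` (`XPW N (j :: w) = XP N j * XPW N w`): the factorisations `j :: w = a ++ i :: b` are `a = []`, `b = w` (if `j = i`) and
`a = j :: a'` with `w = a' ++ i :: b` (`Finset.sum_range_succ'`). -/
def PDX_stmt : Prop := ∀ (N : ℕ) (i : Fin 4) (p : Fin N × Fin N × Bool) (w : Wd),
  (XPW N w).map (MvPolynomial.pderiv ((i, p) : GI N)) = spl i w (fun a b =>
    XPW N a * ((MvPolynomial.C ((Real.sqrt N)⁻¹ : ℂ) : MvPolynomial (GI N) ℂ) •
      ((BM p).map MvPolynomial.C : Matrix (Fin N) (Fin N) (MvPolynomial (GI N) ℂ))) * XPW N b)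

/-- **Row SDE** (medium-long). From STN FRA PDX. Schwinger-Dyson equations.

PROOF. `XW x (i :: w) = XM x i * XW x w`, so the integrand of the left side is
`(√N)⁻¹ ∑_p x(i,p) G_p(x)`, `G_p = ntr(B_p X_w) ∏_j ntr(X_(w_j))`, and `G_p = evx x` of the polynomial obtained from `XPW` (`XPW_ev`;
trace commutes with ring homomorphisms). By STN the expectation of `x(i,p) G_p` is that of `∂_(i,p) G_p`. By PDX and the product
rule (for the list product; `W.eraseIdx j`) `∂_(i,p) G_p = (√N)⁻¹ ∑_(w = a i b) ntr(B_p X_a B_p X_b) ∏_j ntr(X_(w_j)) + (√N)⁻¹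
∑_j ∑_(w_j = a i b) ntr(B_p X_w) ntr(X_a B_p X_b) ∏_(k ≠ j) ntr(X_(w_k))`. Sum over `p`, FRA:
`∑_p B_p X_a B_p = N ntr(X_a) 1`, so `(1/N) ∑_p ntr(B_p X_a B_p X_b) = ntr(X_a) ntr(X_b)`; and
`∑_p ntr(B_p X_w) ntr(B_p X_b X_a) = (1/N) ntr(X_w X_b X_a)` (cyclicity of the trace, `∑_p ntr(B_p M) B_p = (1/N) M`). All functions are
integrable by STN (they are polynomials). -/
def SDE_stmt : Prop := ∀ (N : ℕ) (i : Fin 4) (w : Wd) (W : List Wd), 1 ≤ N →
  EW N ((i :: w) :: W) = spl i w (fun a b => EW N (a :: b :: W)) +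
    ((N : ℂ)⁻¹) ^ 2 * ∑ j ∈ Finset.range W.length, spl i (W.getD j [])
      (fun a b => EW N ((w ++ b ++ a) :: W.eraseIdx j))

/-- **Row TAU** (short-medium). From nothing. Recursion for the vacuum expectations.

PROOF. For `ψ : Wd → ℂ` let `(l_i^* ψ)(v) = ψ(i :: v)`. Claim: `l_i^* (S_w e_0) = ∑_(w = a i b) ta(a) S_b e_0` as functions, by
strong induction on the length of `w`. `w = []`: both sides are `0` (`e0 (i :: v) = 0`). `w = j :: w'`: for every `ψ`,
`(S_j ψ)(i :: v) = (if i = j then ψ v else 0) + ψ(j :: i :: v)`, i.e. `l_i^* S_j ψ = δ_(ij) ψ + l_i^* l_j^* ψ`. So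
`l_i^* S_w e_0 = δ_(ij) S_(w') e_0 + l_i^* (l_j^* S_(w') e_0) = δ_(ij) S_(w') e_0 + ∑_(w' = a j b) ta(a) l_i^* S_b e_0 = δ_(ij) S_(w') e_0 +
∑_(w' = a j b) ∑_(b = a' i b') ta(a) ta(a') S_(b') e_0`. The right side: `w = a'' i b'`: either `a'' = []` (`i = j`, `b' = w'`) or
`a'' = j :: a'''`, `w' = a''' i b'`, and `ta(j :: a''') = (l_j^* S_(a''') e_0)([]) = ∑_(a''' = a j a') ta(a) ta(a')` by induction; the double
sums agree (three pieces `w' = a j a' i b'`). Finally `ta(i :: w) = (S_i S_w e_0)([]) = (S_w e_0)([i])` is the value of the claim at `[]`. -/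
def TAU_stmt : Prop := ta [] = 1 ∧ ∀ (i : Fin 4) (w : Wd), ta (i :: w) = spl i w (fun a b => ta a * ta b)

/-- **Row GEN** (medium). From SDE TAU. Genus expansion.

PROOF. Strong induction on the total length `m = ∑ |w_j|`, then on the number of words. `W = []`: `P = 1`
(`gau` is a probability measure). `W = [] :: W'`: `ntr 1 = 1` as `N ≥ 1`; take `P` of `W'`. `W = (i :: w) :: W'`: SDE; all lists on the right
have total length `m - 2`; `P = spl i w (P_(a,b,W')) + X * ∑_j spl i w_j (P_(...))` (`eval₂` is a ring homomorphism, `X` goes to `N⁻²`). The sum of the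
coefficients `P.eval 1` is at most (number of terms `≤ |w| + ∑ |w_j| = m - 1`) `* gm (m - 2) = gm m`. Constant term: only the first
part contributes: `∑_(w = a i b) ta(a) ta(b) ∏ ta(w_j) = ta(i :: w) ∏ ta(w_j)` by TAU. -/
def GEN_stmt : Prop := ∀ W : List Wd, ∃ P : Polynomial ℕ,
  (∀ N : ℕ, 1 ≤ N → EW N W = P.eval₂ (Nat.castRingHom ℂ) (((N : ℂ)⁻¹) ^ 2)) ∧
  P.eval 1 ≤ gm (W.map List.length).sum ∧ (P.coeff 0 : ℂ) = (W.map ta).prod

/-! ### Block 2: exponentials -/

/-- **Row TTS** (medium). From nothing. The majorant.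

PROOF. `gm m ≤ √(m!)`: `gm(m+2)² = (m+1)² gm(m)² ≤ (m+1)(m+2) m!`. So the terms of `TT m t` are at most
`t^j √((m+j)!)/j!`, summable (ratio `t √(m+j+1)/(j+1) → 0`). Second: `∑_j c^j/j! TT (m+j) t = ∑_(j,l) c^j t^l/(j! l!) gm(m+j+l) =
∑_p gm(m+p)/p! ∑_(j+l=p) p!/(j! l!) c^j t^l = TT m (t + c)` (double series with nonnegative terms,
`summable_prod_of_nonneg`, `tsum` over antidiagonals, binomial theorem `Commute.add_pow'` or `add_pow`; or prove the sum over `p` is summable by the first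
part and rearrange). Third: only `j = 0` (`0^0 = 1`). Fourth: `gm(2k) = (2k)!/(2^k k!)`, `gm(2k+1) = 0` (induction), so
`TT 0 t = ∑_k (t²/2)^k/k!`. -/
def TTS_stmt : Prop := (∀ (m : ℕ) (t : ℝ), 0 ≤ t →
    Summable (fun j : ℕ => t ^ j / (j.factorial : ℝ) * (gm (m + j) : ℝ))) ∧
  (∀ (m : ℕ) (t c : ℝ), 0 ≤ t → 0 ≤ c →
    HasSum (fun j : ℕ => c ^ j / (j.factorial : ℝ) * TT (m + j) t) (TT m (t + c))) ∧
  (∀ m : ℕ, TT m 0 = gm m) ∧ ∀ t : ℝ, 0 ≤ t → TT 0 t = Real.exp (t ^ 2 / 2)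

/-- **Row HSN** (short-medium). From FRA. The synthesis operator of the Parseval frame is a contraction.

PROOF. `M = ∑ x_p B_p` is Hermitian. `Tr(M M) = ∑_p x_p Tr(B_p M) ≤ √(∑ x_p²) √(∑_p |Tr(B_p M)|²)`, and, `Tr(B_p M)` being real
(`B_p`, `M` Hermitian), `∑_p Tr(B_p M)² = Tr((∑_p Tr(B_p M) B_p) M) = Tr(M M)` by FRA. So `Tr(M M) = ∑_ab |M_ab|² ≤ ∑ x_p²`. The operator norm is at most
the Hilbert-Schmidt norm: `‖M v‖² = ∑_a |∑_b M_ab v_b|² ≤ ∑_a (∑_b |M_ab|²) ‖v‖²`. -/
def HSN_stmt : Prop := ∀ (N : ℕ) (x : Fin N × Fin N × Bool → ℝ) (v : EuclideanSpace ℂ (Fin N)),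
  ‖Matrix.toEuclideanCLM (n := Fin N) (𝕜 := ℂ) (∑ p, (x p : ℂ) • BM p) v‖ ≤
    Real.sqrt (∑ p, x p ^ 2) * ‖v‖

/-- **Row INX** (short-medium). From nothing. Integrability of `r^m e^(cr)`, `r = |x|`.

PROOF. `r^m e^(cr) ≤ m! e^((|c|+1) r)` and `r ≤ ∑ |x_i|`, so it is at most `m! ∏_i e^((|c|+1)|x_i|)`; `e^(a|t|) ≤ e^(at) + e^(-at)` is integrable for
`gaussianReal 0 1` (`integrable_exp_mul_gaussianReal`), products: `MeasureTheory.Integrable.fintype_prod`. The function is continuous. -/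
def INX_stmt : Prop := ∀ (ι : Type) [Fintype ι] (m : ℕ) (c : ℝ),
  Integrable (fun x : ι → ℝ => Real.sqrt (∑ i, x i ^ 2) ^ m *
    Real.exp (c * Real.sqrt (∑ i, x i ^ 2))) (gau ι)

/-- **Row EXS** (medium). From HSN INX. Expansion of one exponential.

PROOF. Operator norms (of `Matrix.toEuclideanCLM`, a `*`-isomorphism, so multiplicative up to `≤`, and `1` for unitary matrices;
`ES c x s` is unitary, compare `EX_mem`). `|ntr M| ≤ ‖M‖` (`Tr M = ∑ ⟪e_a, M e_a⟫`). With `r = √(∑ x_i²)`, `‖XM x i‖ ≤ r` (HSN;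
`(√N)⁻¹ ≤ 1`). `ES c x (i,b) = ∑_j (zs c b)^j/j! (XM x i)^j` (`NormedSpace.exp_eq_tsum`), and `XW x (u ++ replicate j i) = XW x u * (XM x i)^j`. So
`ntr (XW x u * EL c x ((i,b) :: L)) = ∑_j (zs c b)^j/j! ntr (XW x (u ++ replicate j i) * EL c x L)` pointwise, the `j`-th term is at most
`|c|^j/j! r^(|u|+j)`, and `∑_j` of these is `r^|u| e^(|c| r)`, integrable by INX: `MeasureTheory.hasSum_integral_of_summable_integral_norm` or
`hasSum_integral_of_dominated_convergence` (bound `|c|^j/j! r^(|u|+j)`). The functions are continuous in `x` (`NormedSpace.exp_continuous`), hence measurable. -/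
def EXS_stmt : Prop := ∀ (N : ℕ) (c : ℝ) (u : Wd) (i : Fin 4) (b : Bool) (L : List (Fin 4 × Bool)),
  1 ≤ N → HasSum (fun j : ℕ => zs c b ^ j / (j.factorial : ℂ) *
      ∫ x, ntr (XW x (u ++ List.replicate j i) * EL c x L) ∂(gau (GI N)))
    (∫ x, ntr (XW x u * EL c x ((i, b) :: L)) ∂(gau (GI N)))

/-- **Row VRC** (short-medium). From nothing. The same expansion for the vacuum expectations.

PROOF. If `|ψ| ≤ K` then `|S_i ψ| ≤ 2K`, so `|(SO i)^[j] ψ| ≤ 2^j K` and `|EO z i ψ| ≤ e^(2|z|) K`, the series in `EO` converges absolutely. So the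
`PsL c L` are bounded (induction; `|e0| ≤ 1`). For every word `u` and every `v`, `(S_u ψ)(v)` is a finite linear combination of values of `ψ` (with coefficients
and places independent of `ψ`): by induction on `u`, `S_u` commutes with pointwise convergent sums of functions: if `∑_j ψ_j(v) = ψ(v)` (`HasSum`) for all `v`
then `∑_j (S_u ψ_j)(v) = (S_u ψ)(v)` for all `v`. Apply it to `ψ_j = z^j/j! (SO i)^[j] (PsL c L)` (`SO` is linear), and
`SW (u ++ replicate j i) ψ = SW u ((SO i)^[j] ψ)` (`List.foldr_append`, induction on `j`). -/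
def VRC_stmt : Prop := (∀ (c : ℝ) (L : List (Fin 4 × Bool)), ∃ K : ℝ, ∀ v, ‖PsL c L v‖ ≤ K) ∧
  ∀ (c : ℝ) (u : Wd) (i : Fin 4) (b : Bool) (L : List (Fin 4 × Bool)),
    HasSum (fun j : ℕ => zs c b ^ j / (j.factorial : ℂ) * SW (u ++ List.replicate j i) (PsL c L) [])
      (SW u (PsL c ((i, b) :: L)) [])

/-- **Row EXL** (medium). From GEN TTS EXS VRC. Expansion of all exponentials.

PROOF. Induction on `L`, for all `u`. `L = []`: `EL = 1`, the integral is `EW N [u]`, take `f k = P.coeff k` (GEN for `W = [u]`): finitely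
many, `∑ ‖f k‖ = P.eval 1 ≤ gm |u| = TT |u| 0` (TTS), `eval₂` is the sum `∑ P.coeff k (N⁻²)^k`, `f 0 = ta u = SW u e0 []`.
`(i, b) :: L`: let `f_j` belong to `u ++ replicate j i` and `L`. `|zs c b| = c`. `∑_j c^j/j! ∑_k |f_j k| ≤ ∑_j c^j/j! TT (|u| + j) (c |L|) =
TT |u| (c |L| + c)` (TTS). So `f k = ∑_j (zs c b)^j/j! f_j k` converges absolutely, `∑_k |f k| ≤ TT |u| (c (|L| + 1))`, and by EXS
the integral is `∑_j (zs c b)^j/j! ∑_k f_j k/N^(2k) = ∑_k f k/N^(2k)` (absolutely convergent double series, `N ≥ 1`). `f 0` by VRC. -/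
def EXL_stmt : Prop := ∀ (c : ℝ), 0 ≤ c → ∀ (L : List (Fin 4 × Bool)) (u : Wd), ∃ f : ℕ → ℂ,
  Summable (fun k => ‖f k‖) ∧ ∑' k, ‖f k‖ ≤ TT u.length (c * L.length) ∧ f 0 = SW u (PsL c L) [] ∧
  ∀ N : ℕ, 1 ≤ N → ∫ x, ntr (XW x u * EL c x L) ∂(gau (GI N)) = ∑' k, f k / (N : ℂ) ^ (2 * k)

/-! ### Block 3: the constant term -/

/-- **Row PNJ** (short-medium). From nothing. `(S_i^j ψ)(v)` if `ψ(i^k v) = 0` for all `k ≥ 1`, `v` not starting with `i`.

PROOF. Define `pn j k` (number of paths) by `pn 0 k = if k = 0 then 1 else 0`, `pn (j+1) k = pn j (k+1) + (if k = 0 then 0 else pn j (k-1))`. Claim: for every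
`ψ` and every `v` not starting with `i`, `((SO i)^[j] ψ) v = ∑_(k ≤ j) pn j k * ψ (i^k v)`, by induction on `j` for all `ψ`:
`(SO i)^[j+1] ψ = (SO i)^[j] (SO i ψ)` and `(SO i ψ)(i^k v) = ψ(i^(k+1) v) + (if k = 0 then 0 else ψ(i^(k-1) v))` (for `k = 0` because `v` does not start with `i`).
(`pn j k = 0` for `k > j`.) For `ψ` as in the row only `k = 0` remains: `((SO i)^[j] ψ) v = pn j 0 * ψ v`. For `ψ = e0`, `v = []`: `ta(i^j) = pn j 0`
(`SW (replicate j i) = (SO i)^[j]`). -/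
def PNJ_stmt : Prop := ∀ (i : Fin 4) (j : ℕ) (ψ : Wd → ℂ) (v : Wd), v.head? ≠ some i →
  (∀ k : ℕ, 1 ≤ k → ψ (List.replicate k i ++ v) = 0) →
  ((SO i)^[j] ψ) v = ta (List.replicate j i) * ψ v

/-- **Row CTJ** (short-medium). From TAU. The vacuum expectation of `exp(± i c S)`.

PROOF. By TAU, `ta(i^(j+1)) = ∑_(k < j) ta(i^k) ta(i^(j-1-k))`, `ta [] = 1`. So `ta(i^(2k+1)) = 0` and `ta(i^(2k)) = catalan k` by strong induction
(`catalan_succ`: in the sum for `i^(2k+2)` only even exponents contribute). `(± i c)^(2k)/(2k)! = (-1)^k c^(2k)/(2k)!` and `catalan k = (2k)!/(k! (k+1)!)`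
(`catalan_eq_centralBinom_div`, `Nat.centralBinom`). Sum over even `j` only (`HasSum` over `ℕ` via the injection `k ↦ 2k`); the series `Jf` converges absolutely. -/
def CTJ_stmt : Prop := ∀ (c : ℝ) (i : Fin 4) (b : Bool),
  HasSum (fun j : ℕ => zs c b ^ j / (j.factorial : ℂ) * ta (List.replicate j i)) (Jf c : ℂ)

/-- **Row JZ** (short-medium). From nothing. A zero of `J`.

PROOF. `Jf` is continuous on `[0, 2]` (uniformly convergent: terms `≤ 4^k/(k!)`, `continuousOn_tsum`), `Jf 0 = 1`,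
`Jf 2 < 0`: `1 - 2 + 4/3 - 4/9 + 4/45 = -1/45` and the remaining terms `k ≥ 5` alternate, decrease, and start with a negative one: their sum is `≤ 0` (or bound it by
`∑_(k ≥ 5) 4^k/(k! (k+1)!) ≤ 2 * 4^5/(5! 6!) = 2048/86400 > 1/45`: so keep one more term: the sum up to `k = 5` is `-1/45 - 8/675`, and the rest is at most `∑_(k ≥ 6) 4^k/(k!(k+1)!) ≤
2 * 4^6/(6! 7!) < 1/400`). Intermediate value theorem; the zero is `> 0` as `Jf 0 = 1`. -/
def JZ_stmt : Prop := ∃ c : ℝ, 0 < c ∧ c ≤ 2 ∧ Jf c = 0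

/-- **Row VAN0** (short-medium). From PNJ CTJ VRC. Alternating products of centred exponentials are centred.

PROOF. Claim: for `L = (i, b) :: L'` alternating, `PsL c L v = 0` for every `v` which does not start with `i`. Induction on `L`. `ψ = PsL c L'` is bounded, and it vanishes
at all words `i^k v`, `k ≥ 1`: if `L' = []` then `ψ = e0`; if `L' = (i', b') :: L''` then `i' ≠ i`, `L'` is alternating, and `i^k v` does not start with `i'`. By PNJ
`((SO i)^[j] ψ) v = ta(i^j) ψ v`, so `PsL c L v = EO z i ψ v = ψ v ∑_j z^j/j! ta(i^j) = ψ v * Jf c = 0` by CTJ. Take `v = []`. -/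
def VAN0_stmt : Prop := ∀ c : ℝ, Jf c = 0 → ∀ L : List (Fin 4 × Bool), L ≠ [] → Alt L →
  PsL c L [] = 0

/-- **Row ULW** (short). From nothing. The words in the unitaries as products of exponentials.

PROOF. `w = FreeGroup.mk w.toWord`; `UG c x` is `FreeGroup.lift`; induction on the list: `U_a` is the product of the two exponentials
`ES c x (2a, true) * ES c x (2a+1, true)` (`zs c true = I c`, `EX c x i = ES c x (i, true)`), its inverse (star) is
`ES c x (2a+1, false) * ES c x (2a, false)` (`exp(-A) exp(A) = 1`). -/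
def ULW_stmt : Prop := ∀ (N : ℕ) (c : ℝ) (x : GI N → ℝ) (w : F2),
  ((UG c x w : Matrix.unitaryGroup (Fin N) ℂ) : Matrix (Fin N) (Fin N) ℂ) = EL c x (ltr w)

/-- **Row ALT** (short). From nothing.

PROOF. `w.toWord` is reduced (`FreeGroup.isReduced_toWord`: neighbouring letters `(a, b), (a', b')` with `a = a'` have `b = b'`). Inside one letter the indices are `2a, 2a+1`. Between two letters: if `a ≠ a'` the
indices are different; if `a = a'`, `b = b' = true`: `2a + 1` is followed by `2a`; `b = b' = false`: `2a` is followed by `2a + 1`. `w.norm = w.toWord.length`. -/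
def ALT_stmt : Prop := ∀ w : F2, Alt (ltr w) ∧ (ltr w).length = 2 * w.norm ∧ (ltr w = [] ↔ w = 1)

/-- **Row EXW** (short-medium). From EXL TTS JZ VAN0 ULW ALT. Target.

PROOF. `c` from JZ, `C = 8`. For `w` take `f` of EXL for `L = ltr w`, `u = []`: `∑ ‖f k‖ ≤ TT 0 (2 c |w|) = exp(2 c² |w|²) ≤ exp(8 (|w| + 1)²)`.
`f 0 = PsL c L []` is `e0 [] = 1` for `w = 1` and `0` otherwise (VAN0, ALT). `Tr(UG c x w) = N ntr(EL c x L)` (ULW, `XW x [] = 1`), pull `N` out of the integral. -/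
def EXW_row : Prop := EXW_stmt

/-! ### Block 4: Lipschitz bound -/

/-- **Row XLP** (short-medium). From nothing. `‖exp(iA) v - exp(iB) v‖ ≤ K ‖v‖`, in operators.

PROOF. `g(s) = exp(isA) exp(i(1-s)B) v`, `g'(s) = exp(isA) i(A - B) exp(i(1-s)B) v`, the exponentials are unitary, so `‖g'(s)‖ ≤ K ‖v‖`;
`norm_image_sub_le_of_norm_deriv_le_segment'`. (`hasDerivAt_exp_smul_const`; the exponential of matrices is that of the operators, `Matrix.toEuclideanCLM` is an isomorphism of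
algebras, continuous; or take derivatives of matrices and apply them to `v`. Alternative without derivatives: telescope `exp(iA/n)^n - exp(iB/n)^n` and let `n → ∞`.) -/
def XLP_stmt : Prop := ∀ (N : ℕ) (A B : Matrix (Fin N) (Fin N) ℂ) (K : ℝ), star A = A → star B = B →
  0 ≤ K → (∀ v, ‖Matrix.toEuclideanCLM (n := Fin N) (𝕜 := ℂ) (A - B) v‖ ≤ K * ‖v‖) →
  ∀ v, ‖Matrix.toEuclideanCLM (n := Fin N) (𝕜 := ℂ) (NormedSpace.exp (Complex.I • A) -
    NormedSpace.exp (Complex.I • B)) v‖ ≤ K * ‖v‖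

/-- **Row ULP** (medium). From HSN XLP. Target.

PROOF. `‖(XM x i - XM y i) v‖ ≤ (√N)⁻¹ √(∑_p (x(i,p) - y(i,p))²) ‖v‖ ≤ (√N)⁻¹ |x - y| ‖v‖` (HSN). XLP with `A = c X_i(x)`, `B = c X_i(y)`:
`‖(EX c x i - EX c y i) v‖ ≤ |c| (√N)⁻¹ |x - y| ‖v‖ =: κ ‖v‖`. `U U' - V V' = (U - V) U' + V (U' - V')` with unitary matrices: for the generators the difference is `≤ 2κ`, the same for
the inverses (`U⁻¹ - V⁻¹ = U⁻¹ (V - U) V⁻¹`), and by induction on the reduced word (`w = mk w.toWord`, `w.norm` letters) the difference is `≤ 2 κ w.norm`.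
`UR c x w v` is the vector `Matrix.toEuclideanCLM (UG c x w) v` (by `rfl`, see `isoU`). -/
def ULP_row : Prop := ULP_stmt

end Pool.Agent.QX
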